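import Pool.Agent.W912.LG.Defs
import Pool.Agent.H622R2.Exp.A6

/-!
# Project LG (helper912), part FPG: the generator is computable
-/

set_option autoImplicit false

namespace Pool.Agent.W933.LG.FPG

open Pool.Agent.NPC Pool.Agent.H620R2.Gauge Pool.Agent.H622R2.Exp Pool.Agent.H622R2.Ckt
open Pool.Agent.W912.LG

/-- the next action -/
def act (p : List Bool × List Bool) : List Bool :=
  if p.2.length < (unpair p.1).1.length then
    false :: ((unpair p.1).1.map (fun _ => true) ++ false ::
      (p.2.map (fun _ => true) ++ false :: (unpair p.1).2))
  else true :: p.2

theorem poly_act : NPC.Poly (fun y => act (unpair y)) := by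
  have hx : NPC.Poly (fun y => (unpair y).1) := NPC.Poly.fst poly_unpair
  have ha : NPC.Poly (fun y => (unpair y).2) := NPC.Poly.snd poly_unpair
  have hxx : NPC.Poly (fun y => unpair (unpair y).1) := NPC.Poly.comp poly_unpair hx
  have hu : NPC.Poly (fun y => (unpair (unpair y).1).1) := NPC.Poly.fst hxx
  have hs : NPC.Poly (fun y => (unpair (unpair y).1).2) := NPC.Poly.snd hxx
  have hm : NPC.Poly (fun y : List Bool => (unpair (unpair y).1).1.map (fun _ => true)) :=
    NPC.Poly.map (F := fun _ _ => true) hu (NPC.Poly.const true)
  have hm2 : NPC.Poly (fun y : List Bool => (unpair y).2.map (fun _ => true)) :=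
    NPC.Poly.map (F := fun _ _ => true) ha (NPC.Poly.const true)
  unfold act
  refine NPC.Poly.ite (NPC.Poly.decide_lt (NPC.Poly.length ha) (NPC.Poly.length hu)) ?_ ?_
  · exact NPC.Poly.cons (NPC.Poly.const _) (NPC.Poly.append hm (NPC.Poly.cons (NPC.Poly.const _)
      (NPC.Poly.append hm2 (NPC.Poly.cons (NPC.Poly.const _) hs))))
  · exact NPC.Poly.cons (NPC.Poly.const _) ha

/-- the algorithm -/
noncomputable def alg : Alg where
  D := fun y => act (unpair y)
  poly := Pool.Agent.H622R2.polyTime_of_poly_list poly_act
  p := Polynomial.X + 1

theorem alg_D (x c : List Bool) : alg.D (pairBits x c) = act (x, c) := by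
  change act (unpair (pairBits x c)) = _
  rw [unpair_pairBits]

theorem ustep_le (s : List Bool × List Bool × Bool) :
    (ustep s).1.length ≤ s.1.length + 1 := by
  obtain ⟨a, l, b⟩ := s
  unfold ustep
  cases b with
  | true => simp
  | false =>
    match l with
    | [] => simp
    | true :: [] => simp
    | true :: c :: l' => simp
    | false :: l' => simp

theorem iter_le (k : ℕ) : ∀ s : List Bool × List Bool × Bool,
    (ustep^[k] s).1.length ≤ s.1.length + k := by
  induction k with
  | zero => intro s; simp
  | succ k ih =>
    intro s
    rw [Function.iterate_succ_apply]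
    have h1 := ih (ustep s)
    have h2 := ustep_le s
    omega

theorem unpair_fst_length (x : List Bool) : (unpair x).1.length ≤ x.length := by
  unfold unpair
  simp only [List.length_reverse]
  have := iter_le x.length ([], x, false)
  simpa using this

/-- the function computed -/
def G (A : Oracle) (x : List Bool) : List Bool :=
  (List.range (unpair x).1.length).map (fun i => A (tq (unpair x).1.length i (unpair x).2))

theorem run_alg (A : Oracle) (x : List Bool) : ∀ (n i : ℕ), n + i = (unpair x).1.length →
    alg.run A x (n + 1) ((List.range i).map
      (fun i => A (tq (unpair x).1.length i (unpair x).2))) = some (G A x) := by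
  intro n
  induction n with
  | zero =>
    intro i hi
    rw [Nat.zero_add] at hi
    have h1 : alg.D (pairBits x ((List.range i).map
        (fun i => A (tq (unpair x).1.length i (unpair x).2)))) = true :: G A x := by
      rw [alg_D]
      unfold act G
      rw [if_neg (by simp only [List.length_map, List.length_range]; omega), hi]
    simp only [Alg.run, h1]
  | succ n ih =>
    intro i hi
    have h1 : alg.D (pairBits x ((List.range i).map
        (fun i => A (tq (unpair x).1.length i (unpair x).2)))) =
        false :: tq (unpair x).1.length i (unpair x).2 := by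
      rw [alg_D]
      unfold act tq
      rw [if_pos (by simp only [List.length_map, List.length_range]; omega)]
      simp only [List.map_const', List.length_map, List.length_range]
    have h2 := ih (i + 1) (by omega)
    rw [List.range_succ, List.map_append, List.map_singleton] at h2
    rw [Alg.run]
    simp only [h1]
    exact h2

theorem fpg : S_FPG := by
  intro A
  refine ⟨G A, ⟨alg, fun x => ?_⟩, fun m s => ?_⟩
  · have h := run_alg A x (unpair x).1.length 0 (by omega)
    rw [List.range_zero, List.map_nil] at h
    refine Alg.run_mono _ A x _ _ _ _ ?_ h
    have h1 : alg.p.eval x.length = x.length + 1 := by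
      change (Polynomial.X + 1 : Polynomial ℕ).eval x.length = _
      simp
    rw [h1]
    have := unpair_fst_length x
    omega
  · unfold G GG
    rw [unpair_pairBits]
    simp only [List.length_replicate]

end Pool.Agent.W933.LG.FPG
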