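import Pool.Agent.W617.LG.StmII

set_option autoImplicit false

/-!
# Project LG: smooth dependence of a simple eigenvector
-/

open Topology Filter Set
open scoped ContDiff InnerProductSpace

namespace Pool.Agent.W933.LG

open Pool.Agent.W617.LG

/-- local inverse of a smooth map with injective derivative -/
lemma local_inv {X : Type*} [NormedAddCommGroup X] [NormedSpace ℝ X] [FiniteDimensional ℝ X]
    (f : X → X) (a : X) (hf : ∀ᶠ p in 𝓝 a, ContDiffAt ℝ ∞ f p)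
    (hinj : ∀ w, fderiv ℝ f a w = 0 → w = 0) :
    ∃ g : X → X, g (f a) = a ∧ ∀ᶠ y in 𝓝 (f a), f (g y) = y ∧ ContDiffAt ℝ ∞ g y := by
  have : CompleteSpace X := FiniteDimensional.complete ℝ X
  have hfa : ContDiffAt ℝ ∞ f a := hf.self_of_nhds
  have hne : (∞ : WithTop ℕ∞) ≠ 0 := by simp
  have hinj' : Function.Injective (fderiv ℝ f a).toLinearMap := by
    rw [injective_iff_map_eq_zero]
    exact hinj
  set e : X ≃L[ℝ] X :=
    (LinearEquiv.ofInjectiveEndo (fderiv ℝ f a).toLinearMap hinj').toContinuousLinearEquiv with he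
  have hee : (e : X →L[ℝ] X) = fderiv ℝ f a := by
    ext w
    rfl
  have hd : HasFDerivAt f (e : X →L[ℝ] X) a := by
    rw [hee]
    exact (hfa.differentiableAt hne).hasFDerivAt
  set P := hfa.toOpenPartialHomeomorph f hd hne with hP
  have hsrc : a ∈ P.source := ContDiffAt.mem_toOpenPartialHomeomorph_source hfa hd hne
  have htgt : f a ∈ P.target := ContDiffAt.image_mem_toOpenPartialHomeomorph_target hfa hd hne
  have hcoe : ∀ x, P x = f x := fun x => rfl
  have hga : P.symm (f a) = a := P.left_inv hsrc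
  refine ⟨P.symm, hga, ?_⟩
  -- invertible derivative nearby
  have h1 : ∀ᶠ p in 𝓝 a, ∃ e' : X ≃L[ℝ] X, HasFDerivAt f (e' : X →L[ℝ] X) p := by
    have hc : ContinuousAt (fderiv ℝ f) a := hfa.continuousAt_fderiv hne
    have hn := ContinuousLinearEquiv.nhds e
    rw [hee] at hn
    have h2 := hc.eventually hn
    filter_upwards [h2, hf] with p hp hp'
    obtain ⟨e', he'⟩ := hp
    refine ⟨e', ?_⟩
    rw [he']
    exact (hp'.differentiableAt hne).hasFDerivAt
  have h2 : Tendsto P.symm (𝓝 (f a)) (𝓝 a) := by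
    have := P.continuousAt_symm htgt
    unfold ContinuousAt at this
    rwa [hga] at this
  have h3 := P.open_target.mem_nhds htgt
  filter_upwards [h3, h2.eventually h1, h2.eventually hf] with y hy h4 h5
  obtain ⟨e', he'⟩ := h4
  exact ⟨P.right_inv hy, P.contDiffAt_symm hy he' h5⟩

theorem t_EIG : S_EIG := by
  intro q S x₀ v₀ μ₀ hS hsym hv0 hSv hsimple
  have hne : (∞ : WithTop ℕ∞) ≠ 0 := by simp
  set Ψ : E q × E q × ℝ → E q × E q × ℝ := fun p =>
    (p.1, S p.1 p.2.1 - p.2.2 • p.2.1, ⟪p.2.1, p.2.1⟫_ℝ - 1) with hΨ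
  have hvv : ⟪v₀, v₀⟫_ℝ = 1 := by rw [real_inner_self_eq_norm_sq, hv0]; norm_num
  have hsm : ∀ᶠ p in 𝓝 ((x₀, v₀, μ₀) : E q × E q × ℝ), ContDiffAt ℝ ∞ Ψ p := by
    have ht : Tendsto (Prod.fst : E q × E q × ℝ → E q) (𝓝 (x₀, v₀, μ₀)) (𝓝 x₀) :=
      continuous_fst.tendsto _
    filter_upwards [ht.eventually hS] with p hp
    have c1 : ContDiffAt ℝ ∞ (fun p : E q × E q × ℝ => p.1) p := contDiffAt_fst
    have c2 : ContDiffAt ℝ ∞ (fun p : E q × E q × ℝ => p.2.1) p :=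
      contDiffAt_fst.comp p contDiffAt_snd
    have c3 : ContDiffAt ℝ ∞ (fun p : E q × E q × ℝ => p.2.2) p :=
      contDiffAt_snd.comp p contDiffAt_snd
    have c4 : ContDiffAt ℝ ∞ (fun p : E q × E q × ℝ => S p.1) p := hp.comp p c1
    exact c1.prodMk (((c4.clm_apply c2).sub (c3.smul c2)).prodMk
      ((c2.inner ℝ c2).sub contDiffAt_const))
  have hder : HasFDerivAt Ψ (fderiv ℝ Ψ (x₀, v₀, μ₀)) (x₀, v₀, μ₀) :=
    (hsm.self_of_nhds.differentiableAt hne).hasFDerivAt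
  have hinj : ∀ w, fderiv ℝ Ψ (x₀, v₀, μ₀) w = 0 → w = 0 := by
    have d0 : HasFDerivAt S (fderiv ℝ S x₀) x₀ :=
      (hS.self_of_nhds.differentiableAt hne).hasFDerivAt
    have d1 : HasFDerivAt (fun p : E q × E q × ℝ => p.1)
        (ContinuousLinearMap.fst ℝ (E q) (E q × ℝ)) (x₀, v₀, μ₀) := hasFDerivAt_fst
    have d23 : HasFDerivAt (fun p : E q × E q × ℝ => p.2)
        (ContinuousLinearMap.snd ℝ (E q) (E q × ℝ)) (x₀, v₀, μ₀) := hasFDerivAt_snd
    have d2 : HasFDerivAt (fun p : E q × E q × ℝ => p.2.1)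
        ((ContinuousLinearMap.fst ℝ (E q) ℝ).comp (ContinuousLinearMap.snd ℝ (E q) (E q × ℝ)))
        (x₀, v₀, μ₀) := HasFDerivAt.comp (x₀, v₀, μ₀) hasFDerivAt_fst d23
    have d3 : HasFDerivAt (fun p : E q × E q × ℝ => p.2.2)
        ((ContinuousLinearMap.snd ℝ (E q) ℝ).comp (ContinuousLinearMap.snd ℝ (E q) (E q × ℝ)))
        (x₀, v₀, μ₀) := HasFDerivAt.comp (x₀, v₀, μ₀) hasFDerivAt_snd d23
    have d4 : HasFDerivAt (fun p : E q × E q × ℝ => S p.1)
        ((fderiv ℝ S x₀).comp (ContinuousLinearMap.fst ℝ (E q) (E q × ℝ))) (x₀, v₀, μ₀) :=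
      HasFDerivAt.comp (x₀, v₀, μ₀) d0 d1
    have d5 := (d4.clm_apply d2).sub (d3.smul d2)
    have d6 := (d2.inner ℝ d2).sub_const (1 : ℝ)
    have d7 := d1.prodMk (d5.prodMk d6)
    have d8 := hder.unique d7
    intro w hw
    rw [d8] at hw
    obtain ⟨u, w, ν⟩ := w
    have k1 := congrArg Prod.fst hw
    have k2 := congrArg (fun z => z.2.1) hw
    have k3 := congrArg (fun z => z.2.2) hw
    simp at k1 k2 k3
    rw [k1, map_zero, ContinuousLinearMap.zero_apply, add_zero] at k2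
    have k4 : ⟪v₀, w⟫_ℝ = 0 := by
      have := real_inner_comm v₀ w
      linarith
    have s1 : ⟪S x₀ w, v₀⟫_ℝ = 0 := by
      rw [hsym.self_of_nhds w v₀, hSv, real_inner_smul_left, k4, mul_zero]
    have k5 : ν = 0 := by
      have h : ⟪S x₀ w - (μ₀ • w + ν • v₀), v₀⟫_ℝ = ⟪(0 : E q), v₀⟫_ℝ := by rw [k2]
      rw [inner_sub_left, inner_add_left, real_inner_smul_left, real_inner_smul_left, s1, hvv,
        real_inner_comm, k4, inner_zero_left] at h
      linarith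
    rw [k5, zero_smul, add_zero] at k2
    obtain ⟨c, hc⟩ := hsimple w (sub_eq_zero.1 k2)
    have k6 : c = 0 := by
      rw [hc, real_inner_smul_right, hvv, mul_one] at k4
      exact k4
    rw [k6, zero_smul] at hc
    rw [k1, hc, k5]
    rfl
  obtain ⟨g, hg0, hg⟩ := local_inv Ψ (x₀, v₀, μ₀) hsm hinj
  have hΨ0 : Ψ (x₀, v₀, μ₀) = (x₀, 0, 0) := by
    simp only [hΨ]
    rw [hSv, hvv]
    simp
  rw [hΨ0] at hg0 hg
  refine ⟨fun x => (g (x, 0, 0)).2.1, fun x => (g (x, 0, 0)).2.2, ?_, ?_, ?_⟩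
  · show (g (x₀, 0, 0)).2.1 = v₀
    rw [hg0]
  · show (g (x₀, 0, 0)).2.2 = μ₀
    rw [hg0]
  have ht : Tendsto (fun x : E q => ((x, 0, 0) : E q × E q × ℝ)) (𝓝 x₀) (𝓝 (x₀, 0, 0)) := by
    have : Continuous (fun x : E q => ((x, 0, 0) : E q × E q × ℝ)) := by fun_prop
    exact this.tendsto x₀
  filter_upwards [ht.eventually hg] with x hx
  obtain ⟨h1, h2⟩ := hx
  have h3 : ContDiffAt ℝ ∞ (fun x : E q => g (x, 0, 0)) x :=
    ContDiffAt.comp x h2 (contDiffAt_id.prodMk contDiffAt_const)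
  have k1 := congrArg Prod.fst h1
  have k2 := congrArg (fun z => z.2.1) h1
  have k3 := congrArg (fun z => z.2.2) h1
  simp only [hΨ] at k1 k2 k3
  rw [k1] at k2
  refine ⟨contDiffAt_fst.comp x (contDiffAt_snd.comp x h3),
    contDiffAt_snd.comp x (contDiffAt_snd.comp x h3), sub_eq_zero.1 k2, ?_⟩
  rw [real_inner_self_eq_norm_sq] at k3
  have h4 : ‖(g (x, 0, 0)).2.1‖ ^ 2 = 1 := by linarith
  exact (pow_eq_one_iff_of_nonneg (norm_nonneg _) two_ne_zero).1 h4

end Pool.Agent.W933.LG
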